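import Pool.Agent.X40.Kron

/-!
# MP_68ef1b_nt: divisibility of `B(p q r ^ b)` by `p`

`B(5 · 7 · 13 ^ 2) = 12822` is not divisible by `5`.
-/

set_option autoImplicit false

namespace Pool.Agent.Results.MP_68ef1b_nt.CounterExample

open Polynomial Finset Pool.Agent.X40 Pool.Agent.X40.Kr

/-- check of all products of `a` and a subset of the cyclotomic polynomials of the list -/
def go (K n h : ℕ) : List (List ℕ) → ℕ → ℕ → ℕ → Bool
  | [], a, v, u => Nat.blt (2 ^ v * h + 2 ^ u) (2 ^ K) && chk K n h a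
  | l :: L, a, v, u => go K n h L a v u &&
      go K n h L (a * cv (2 ^ K) l) (v + (V l).length) (u + (U l).length)

lemma go_spec {K n h : ℕ} (hK : 0 < K) (L : List (List ℕ)) :
    ∀ (A : ℤ[X]) (a v u : ℕ), (∀ l ∈ L, ∀ p ∈ l, p.Prime) → Adm (2 ^ K) A a v u →
    go K n h L a v u = true → ∀ S ⊆ (L.map List.prod).toFinset,
    H (A * ∏ d ∈ S, cyclotomic d ℤ) ≤ h := by
  have hB : 1 < 2 ^ K := Nat.one_lt_pow hK.ne' (by norm_num)
  induction L with
  | nil =>
    intro A a v u _ hA hgo S hS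
    rw [List.map_nil, List.toFinset_nil, subset_empty] at hS
    rw [hS, prod_empty, mul_one]
    rw [go, Bool.and_eq_true, Nat.blt_eq] at hgo
    exact (hA.height hK hgo.1 hgo.2).1
  | cons l L ih =>
    intro A a v u hL hA hgo S hS
    rw [go, Bool.and_eq_true] at hgo
    have hL' : ∀ m ∈ L, ∀ p ∈ m, p.Prime := fun m hm => hL m (by simp [hm])
    rw [List.map_cons, List.toFinset_cons] at hS
    by_cases hl : l.prod ∈ S
    · have h1 := hA.mul (Adm.cyc hB (hL l (by simp)))
      have h2 := ih _ _ _ _ hL' h1 hgo.2 (S.erase l.prod) (by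
        rwa [← subset_insert_iff])
      rwa [mul_assoc, mul_prod_erase S (fun d => cyclotomic d ℤ) hl] at h2
    · exact ih A a v u hL' hA hgo.1 S ((subset_insert_iff_of_notMem hl).1 hS)

def L0 : List (List ℕ) := [[], [5], [7], [5, 7], [13], [13, 5], [13, 7], [13, 5, 7], [13, 13], [13, 13, 5],
  [13, 13, 7], [13, 13, 5, 7]]

def L1 : List (List ℕ) := [[5], [7], [13], [13, 5, 7], [13, 13, 5], [13, 13, 7]]

lemma divisors_eq : (5 * 7 * 13 ^ 2 : ℕ).divisors = (L0.map List.prod).toFinset := by decide +kernel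

lemma go_L0 : go 40 5916 12822 L0 1 0 0 = true := by decide +kernel

lemma primes_L0 : ∀ l ∈ L0, ∀ p ∈ l, p.Prime := by
  intro l hl p hp
  have h : ∀ l ∈ L0, ∀ p ∈ l, p = 5 ∨ p = 7 ∨ p = 13 := by decide
  rcases h l hl p hp with rfl | rfl | rfl <;> norm_num

lemma B_le_12822 : B (5 * 7 * 13 ^ 2) ≤ 12822 := by
  apply B_le (by norm_num)
  intro S hS
  rw [divisors_eq] at hS
  have h := go_spec (by norm_num) L0 1 1 0 0 primes_L0 (Adm.one _) go_L0 S hS
  rwa [one_mul] at h

lemma coeff_L1 : (CP L1).coeff 597 = 12822 ∨ (CP L1).coeff 597 = -12822 := by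
  have h := ((Adm.list (B := 2 ^ 40) (S := L1) (by norm_num) (by
    intro l hl
    exact primes_L0 l ((show ∀ l ∈ L1, l ∈ L0 by decide) l hl))).height (n := 5916) (h := 12822)
    (by norm_num) (by decide +kernel) (by decide +kernel)).2 597 (by norm_num)
  rw [h]
  decide +kernel

lemma le_B_12822 : 12822 ≤ B (5 * 7 * 13 ^ 2) := by
  have h1 := le_H (CP L1) 597
  have h2 : 12822 ≤ H (CP L1) := by
    rcases coeff_L1 with h | h <;> rw [h] at h1 <;> exact h1
  have h3 : CP L1 = ∏ d ∈ (L1.map List.prod).toFinset, cyclotomic d ℤ := by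
    rw [CP, List.prod_toFinset _ (by decide), List.map_map]
    rfl
  rw [h3] at h2
  refine h2.trans (le_B' (by norm_num) ?_)
  rw [divisors_eq]
  decide

/-- **Disproof of MP_68ef1b_nt, Q1**: `B(5 · 7 · 13 ^ 2) = 12822` is not divisible by `5`. -/
theorem result :
    (¬ ∀ p q r b : ℕ, p.Prime → q.Prime → r.Prime → p < q → q < r → 2 ≤ b → p ∣ B (p * q * r ^ b)) ∧
    B (5 * 7 * 13 ^ 2) = 12822 := by
  have hB : B (5 * 7 * 13 ^ 2) = 12822 := le_antisymm B_le_12822 le_B_12822
  refine ⟨?_, hB⟩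
  intro h
  have h1 := h 5 7 13 2 (by norm_num) (by norm_num) (by norm_num) (by norm_num) (by norm_num) le_rfl
  rw [hB] at h1
  norm_num at h1

end Pool.Agent.Results.MP_68ef1b_nt.CounterExample
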